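import Pool.Agent.Helper94.PP.GoalsA1
import Pool.Agent.Helper61.RS.ZET
import Pool.Agent.Helper58.RS.EUL

/-!
# Project PP, packet A1_LOG: `|L(s, χ)| ≤ C (1 + log N(𝔪))`
-/

namespace Pool.Agent.Helper97.PP

open NumberField Module IsDedekindDomain
open Pool.Agent.Helper38.RS (Lf)
open Pool.Agent.Helper38.RSP (Lc)
open Pool.Agent.Helper51.PP (RC)
open Pool.Agent.Helper94.PP

section

variable {F : Type} [Field F] [NumberField F]

/-- Nonzero ideals. -/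
abbrev NZ (F : Type) [Field F] [NumberField F] : Type := {J : Ideal (𝓞 F) // J ≠ ⊥}

theorem rc_le {𝔪 : Ideal (𝓞 F)} {χ : Ideal (𝓞 F) → ℂ} (h : RC 𝔪 χ) (J : Ideal (𝓞 F)) :
    ‖χ J‖ ≤ 1 := by
  by_cases h0 : J = ⊥
  · rw [h0, h.zero]; simp
  · by_cases h1 : J ⊔ 𝔪 = ⊤
    · exact (h.cop J h0 h1).le
    · rw [h.ncop J h0 h1]; simp

theorem one_le_N {J : Ideal (𝓞 F)} (hJ : J ≠ ⊥) : (1 : ℝ) ≤ (Ideal.absNorm J : ℝ) := by
  have h : Ideal.absNorm J ≠ 0 := by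
    rwa [Ne, Ideal.absNorm_eq_zero_iff]
  exact_mod_cast Nat.one_le_iff_ne_zero.2 h

end

/-- The elementary inequality `x^(-s) exp(-x/Z) ≤ e x^(-σ)`, `σ = 1 + 1/(1 + log Z)`. -/
theorem elem {x s Z : ℝ} (hx : 1 ≤ x) (hs : 1 < s) (hZ : 1 ≤ Z) :
    x ^ (-s) * Real.exp (-x / Z) ≤ Real.exp 1 * x ^ (-(1 + 1 / (1 + Real.log Z))) := by
  have hx0 : 0 < x := by linarith
  have hZ0 : 0 < Z := by linarith
  have hL : 0 ≤ Real.log Z := Real.log_nonneg hZ
  have hl : 0 ≤ Real.log x := Real.log_nonneg hx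
  have h1 : x ^ (-s) ≤ x ^ (-1 : ℝ) := Real.rpow_le_rpow_of_exponent_le hx (by linarith)
  refine (mul_le_mul_of_nonneg_right h1 (Real.exp_nonneg _)).trans ?_
  rw [Real.rpow_def_of_pos hx0, Real.rpow_def_of_pos hx0, ← Real.exp_add, ← Real.exp_add]
  apply Real.exp_le_exp.2
  have h2 : Real.log (x / Z) ≤ x / Z - 1 := Real.log_le_sub_one_of_pos (by positivity)
  rw [Real.log_div hx0.ne' hZ0.ne'] at h2
  have hxZ : 0 < x / Z := by positivity
  have h3 : Real.log x * (1 / (1 + Real.log Z)) ≤ 1 + x / Z := by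
    rw [mul_one_div, div_le_iff₀ (by linarith)]
    nlinarith [mul_nonneg hxZ.le hL]
  have h4 : -x / Z = -(x / Z) := by ring
  rw [h4]
  nlinarith

theorem wt_aux (h2 : A1_WTS) {b s Z N : ℝ} (hb : 0 ≤ b) (hb1 : b ≤ 1) (hs : 1 ≤ s) (hs2 : s ≤ 2)
    (hZ : 0 < Z) (hN : 1 ≤ N) :
    Wt (1 - b) (3 * Z ^ (-b) * N ^ 2)
      (fun x ↦ (x / N) ^ (-s) * (1 - Real.exp (-(x / N) / Z))) := by
  have hN0 : 0 < N := by linarith
  have H := h2 b s (Z * N) hb hb1 hs hs2 (by positivity)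
  have key : ∀ x : ℝ, 1 ≤ x → (x / N) ^ (-s) * (1 - Real.exp (-(x / N) / Z)) =
      N ^ s * (x ^ (-s) * (1 - Real.exp (-x / (Z * N)))) := by
    intro x hx
    have hx0 : 0 < x := by linarith
    rw [Real.div_rpow hx0.le hN0.le, Real.rpow_neg hN0.le s, div_inv_eq_mul]
    have : -(x / N) / Z = -x / (Z * N) := by field_simp
    rw [this]; ring
  have hNs : N ^ s ≤ N ^ 2 := by
    rw [← Real.rpow_natCast N 2]
    exact Real.rpow_le_rpow_of_exponent_le hN (by push_cast; exact hs2)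
  have hZN : (Z * N) ^ (-b) ≤ Z ^ (-b) := by
    rw [Real.mul_rpow hZ.le hN0.le]
    have : N ^ (-b) ≤ 1 := by
      have := Real.rpow_le_rpow_of_exponent_le hN (show -b ≤ 0 by linarith)
      rwa [Real.rpow_zero] at this
    have h0 : 0 ≤ Z ^ (-b) := Real.rpow_nonneg hZ.le _
    nlinarith
  have hN0' : 0 ≤ N ^ s := Real.rpow_nonneg hN0.le _
  have hZ0' : 0 ≤ Z ^ (-b) := Real.rpow_nonneg hZ.le _
  have hc : N ^ s * (3 * (Z * N) ^ (-b)) ≤ 3 * Z ^ (-b) * N ^ 2 := by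
    calc N ^ s * (3 * (Z * N) ^ (-b)) ≤ N ^ 2 * (3 * Z ^ (-b)) := by
          apply mul_le_mul hNs (by linarith) (by positivity) (by positivity)
      _ = _ := by ring
  constructor
  · intro x hx
    rw [key x hx, abs_mul, abs_of_nonneg hN0']
    have h := H.bd x hx
    have hx1 : 0 ≤ x ^ (-(1 - b)) := Real.rpow_nonneg (by linarith) _
    calc N ^ s * |x ^ (-s) * (1 - Real.exp (-x / (Z * N)))|
        ≤ N ^ s * (3 * (Z * N) ^ (-b) * x ^ (-(1 - b))) := mul_le_mul_of_nonneg_left h hN0'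
      _ = (N ^ s * (3 * (Z * N) ^ (-b))) * x ^ (-(1 - b)) := by ring
      _ ≤ _ := mul_le_mul_of_nonneg_right hc hx1
  · intro x y hx hxy
    rw [key x hx, key y (hx.trans hxy), ← mul_sub, abs_mul, abs_of_nonneg hN0']
    have h := H.lip x y hx hxy
    have hx1 : 0 ≤ x ^ (-(1 - b)) * ((y - x) / x) :=
      mul_nonneg (Real.rpow_nonneg (by linarith) _) (div_nonneg (by linarith) (by linarith))
    calc N ^ s * |x ^ (-s) * (1 - Real.exp (-x / (Z * N))) -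
          y ^ (-s) * (1 - Real.exp (-y / (Z * N)))|
        ≤ N ^ s * (3 * (Z * N) ^ (-b) * x ^ (-(1 - b)) * ((y - x) / x)) :=
          mul_le_mul_of_nonneg_left h hN0'
      _ = (N ^ s * (3 * (Z * N) ^ (-b))) * (x ^ (-(1 - b)) * ((y - x) / x)) := by ring
      _ ≤ (3 * Z ^ (-b) * N ^ 2) * (x ^ (-(1 - b)) * ((y - x) / x)) :=
          mul_le_mul_of_nonneg_right hc hx1
      _ = _ := by ring

theorem goalLOG (h1 : A1_SUM) (h2 : A1_WTS) : A1_LOG := by
  intro F _ _ _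
  have hn : 0 < finrank ℚ F := finrank_pos
  set n : ℝ := (finrank ℚ F : ℝ) with hnd
  have hn0 : (1 : ℝ) ≤ n := by rw [hnd]; exact_mod_cast hn
  set b : ℝ := 1 / (2 * n) with hbd
  have hb0 : 0 < b := by rw [hbd]; positivity
  have hb1 : b ≤ 1 := by
    rw [hbd, div_le_one (by positivity)]; linarith
  have hba : 1 - 1 / n < 1 - b := by
    have : b < 1 / n := by
      rw [hbd]
      apply one_div_lt_one_div_of_lt (by linarith) (by linarith)
    linarith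
  obtain ⟨C₁, E, hC₁, H⟩ := h1 F (1 - b) hba (by linarith)
  obtain ⟨Cz, hCz⟩ := Pool.Agent.Helper61.RS.s_zet Pool.Agent.Helper58.RS.s_eul F
  obtain ⟨Ce, hCe⟩ := Pool.Agent.Helper58.RS.s_eul F
  have hsum : ∀ s : ℝ, 1 < s →
      Summable fun J : NZ F ↦ (Ideal.absNorm J.1 : ℝ) ^ (-s) := by
    intro s hs
    exact (hCe (fun _ ↦ 1) rfl (fun _ _ ↦ by norm_num) (fun _ ↦ by norm_num) s hs).1
  have hCz0 : 0 ≤ Cz := by
    obtain ⟨-, h3, h4⟩ := hCz 2 (by norm_num) le_rfl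
    have := h3.le.trans h4
    norm_num at this
    exact this
  refine ⟨3 * C₁ + Real.exp 1 * Cz * (1 + E / b) + 1, by positivity, ?_⟩
  intro 𝔪 χ hχ hN s hs hs2
  have hm : (1 : ℝ) ≤ (Ideal.absNorm 𝔪 : ℝ) := one_le_N hχ.ne
  set M : ℝ := (Ideal.absNorm 𝔪 : ℝ) with hMd
  have hM0 : 0 < M := by linarith
  have hlM : 0 ≤ Real.log M := Real.log_nonneg hm
  set Z : ℝ := M ^ ((E : ℝ) / b) with hZd
  have hZ1 : 1 ≤ Z := Real.one_le_rpow hm (by positivity)
  have hZ0 : 0 < Z := by linarith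
  have hlZ : Real.log Z = E / b * Real.log M := by rw [hZd, Real.log_rpow hM0]
  have hZb : Z ^ (-b) * M ^ E = 1 := by
    rw [hZd, ← Real.rpow_mul hM0.le, ← Real.rpow_natCast M E, ← Real.rpow_add hM0]
    have : (E : ℝ) / b * -b + (E : ℝ) = 0 := by field_simp; ring
    rw [this, Real.rpow_zero]
  set w : ℝ → ℝ := fun x ↦ x ^ (-s) * (1 - Real.exp (-x / Z)) with hwd
  set v : ℝ → ℝ := fun x ↦ x ^ (-s) * Real.exp (-x / Z) with hvd
  have hJ1 : ∀ J : NZ F, (1 : ℝ) ≤ (Ideal.absNorm J.1 : ℝ) := fun J ↦ one_le_N J.2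
  have hv0 : ∀ J : NZ F, 0 ≤ v (Ideal.absNorm J.1) := by
    intro J
    have := hJ1 J
    simp only [hvd]
    positivity
  have hexp1 : ∀ x : ℝ, 0 ≤ x → Real.exp (-x / Z) ≤ 1 := by
    intro x hx
    rw [Real.exp_le_one_iff]
    apply div_nonpos_of_nonpos_of_nonneg <;> linarith
  have hvle : ∀ J : NZ F, v (Ideal.absNorm J.1) ≤ (Ideal.absNorm J.1 : ℝ) ^ (-s) := by
    intro J
    have := hJ1 J
    simp only [hvd]
    have h3 : 0 ≤ (Ideal.absNorm J.1 : ℝ) ^ (-s) := Real.rpow_nonneg (by linarith) _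
    have h4 := hexp1 (Ideal.absNorm J.1) (by linarith)
    nlinarith
  have hvs : Summable fun J : NZ F ↦ v (Ideal.absNorm J.1) :=
    Summable.of_nonneg_of_le hv0 hvle (hsum s hs)
  -- summability of the weights
  have hws : ∀ N : ℝ, 1 ≤ N → Summable fun J : NZ F ↦ |w (Ideal.absNorm J.1 / N)| := by
    intro N hN1
    have hN0 : 0 < N := by linarith
    refine Summable.of_nonneg_of_le (fun J ↦ abs_nonneg _) ?_ ((hsum s hs).mul_left (N ^ s))
    intro J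
    have hJ := hJ1 J
    simp only [hwd]
    have h3 : 0 ≤ (Ideal.absNorm J.1 : ℝ) / N := by positivity
    have h4 := hexp1 _ h3
    have h5 : 0 < Real.exp (-((Ideal.absNorm J.1 : ℝ) / N) / Z) := Real.exp_pos _
    have h6 : 0 ≤ ((Ideal.absNorm J.1 : ℝ) / N) ^ (-s) := Real.rpow_nonneg h3 _
    rw [abs_of_nonneg (mul_nonneg h6 (by linarith))]
    calc ((Ideal.absNorm J.1 : ℝ) / N) ^ (-s) *
          (1 - Real.exp (-((Ideal.absNorm J.1 : ℝ) / N) / Z))
        ≤ ((Ideal.absNorm J.1 : ℝ) / N) ^ (-s) := mul_le_of_le_one_right h6 (by linarith)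
      _ = N ^ s * (Ideal.absNorm J.1 : ℝ) ^ (-s) := by
          rw [Real.div_rpow (by linarith) hN0.le, Real.rpow_neg hN0.le s, div_inv_eq_mul, mul_comm]
  -- second sum
  have hB := H 𝔪 χ hχ hN (3 * Z ^ (-b)) w
    (fun N hN1 ↦ wt_aux h2 hb0.le hb1 hs.le hs2 hZ0 hN1) hws
  have hB' : ‖∑' J : NZ F, χ J.1 * (w (Ideal.absNorm J.1) : ℂ)‖ ≤ 3 * C₁ := by
    refine hB.trans (le_of_eq ?_)
    calc C₁ * (3 * Z ^ (-b)) * M ^ E = 3 * C₁ * (Z ^ (-b) * M ^ E) := by ring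
      _ = 3 * C₁ := by rw [hZb, mul_one]
  have hχ1 : ∀ J : NZ F, ‖χ J.1‖ ≤ 1 := fun J ↦ rc_le hχ J.1
  have hw1 : Summable fun J : NZ F ↦ χ J.1 * (w (Ideal.absNorm J.1) : ℂ) := by
    apply Summable.of_norm
    refine Summable.of_nonneg_of_le (fun _ ↦ norm_nonneg _) ?_ (hws 1 le_rfl)
    intro J
    rw [norm_mul, Complex.norm_real, Real.norm_eq_abs, div_one]
    exact mul_le_of_le_one_left (abs_nonneg _) (hχ1 J)
  have hv1 : Summable fun J : NZ F ↦ ‖χ J.1 * (v (Ideal.absNorm J.1) : ℂ)‖ := by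
    refine Summable.of_nonneg_of_le (fun _ ↦ norm_nonneg _) ?_ hvs
    intro J
    rw [norm_mul, Complex.norm_real, Real.norm_eq_abs, abs_of_nonneg (hv0 J)]
    exact mul_le_of_le_one_left (hv0 J) (hχ1 J)
  -- the first sum
  set σ : ℝ := 1 + 1 / (1 + Real.log Z) with hσd
  have hlZ0 : 0 ≤ Real.log Z := Real.log_nonneg hZ1
  have hσ1 : 1 < σ := by
    rw [hσd]
    have : 0 < 1 / (1 + Real.log Z) := by positivity
    linarith
  have hσ2 : σ ≤ 2 := by
    rw [hσd]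
    have : 1 / (1 + Real.log Z) ≤ 1 := by
      rw [div_le_one (by linarith)]; linarith
    linarith
  have hA : ‖∑' J : NZ F, χ J.1 * (v (Ideal.absNorm J.1) : ℂ)‖ ≤
      Real.exp 1 * (Cz * (1 + Real.log Z)) := by
    refine (norm_tsum_le_tsum_norm hv1).trans ?_
    have h3 : ∑' J : NZ F, ‖χ J.1 * (v (Ideal.absNorm J.1) : ℂ)‖ ≤
        ∑' J : NZ F, Real.exp 1 * (Ideal.absNorm J.1 : ℝ) ^ (-σ) := by
      refine Summable.tsum_le_tsum ?_ hv1 ((hsum σ hσ1).mul_left _)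
      intro J
      rw [norm_mul, Complex.norm_real, Real.norm_eq_abs, abs_of_nonneg (hv0 J)]
      exact (mul_le_of_le_one_left (hv0 J) (hχ1 J)).trans (elem (hJ1 J) hs hZ1)
    refine h3.trans ?_
    rw [tsum_mul_left]
    apply mul_le_mul_of_nonneg_left _ (Real.exp_nonneg _)
    obtain ⟨-, -, h4⟩ := hCz σ hσ1 hσ2
    have h5 : Lf (F := F) (fun _ ↦ 1) σ = ∑' J : NZ F, (Ideal.absNorm J.1 : ℝ) ^ (-σ) := by
      unfold Lf
      simp only [one_mul]
    rw [h5] at h4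
    refine h4.trans (le_of_eq ?_)
    rw [hσd]
    have : (1 + Real.log Z) ≠ 0 := by positivity
    field_simp
    ring
  have hsplit : Lc χ s = ∑' J : NZ F, χ J.1 * (v (Ideal.absNorm J.1) : ℂ) +
      ∑' J : NZ F, χ J.1 * (w (Ideal.absNorm J.1) : ℂ) := by
    rw [← Summable.tsum_add hv1.of_norm hw1]
    unfold Lc
    apply tsum_congr
    intro J
    rw [← mul_add, ← Complex.ofReal_add]
    congr 2
    simp only [hvd, hwd]
    ring
  rw [hsplit]
  refine (norm_add_le _ _).trans ((add_le_add hA hB').trans ?_)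
  rw [hlZ]
  have hEb : 0 ≤ (E : ℝ) / b := by positivity
  have he : 0 ≤ Real.exp 1 * Cz := by positivity
  have h6 : 1 + (E : ℝ) / b * Real.log M ≤ (1 + E / b) * (1 + Real.log M) := by
    nlinarith
  calc Real.exp 1 * (Cz * (1 + (E : ℝ) / b * Real.log M)) + 3 * C₁
      = (Real.exp 1 * Cz) * (1 + (E : ℝ) / b * Real.log M) + 3 * C₁ := by ring
    _ ≤ (Real.exp 1 * Cz) * ((1 + E / b) * (1 + Real.log M)) + 3 * C₁ * (1 + Real.log M) := by
        apply add_le_add (mul_le_mul_of_nonneg_left h6 he)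
        nlinarith
    _ ≤ _ := by nlinarith

end Pool.Agent.Helper97.PP
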